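import Pool.Agent.Helper42.FR.Stmts

/-!
# Row FO: Følner sets

`G = ℤ/n × ℤ/n × Perm (ℤ/m)`, `s (i, j, σ) = (i + 1, j, σ)`, `t (i, j, σ) = (i, j + 1, c i j * σ)`
where `c i j` is the product of the transpositions `(j - l, j - l + 1)`, `l < i`, and
`x (i, j, σ) = σ⁻¹ (j - i)`.
-/

set_option autoImplicit false

namespace Pool.Agent.Helper38.FR

open Pool.Agent.Helper42.FR

/-- product of adjacent transpositions -/
def cy (m : ℕ) : ℕ → ZMod m → Equiv.Perm (ZMod m)
  | 0, _ => 1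
  | (i + 1), b => Equiv.swap (b - i) (b - i + 1) * cy m i b

theorem ne_cast {m a b : ℕ} (h : a ≠ b) (ha : a < m) (hb : b < m) : (a : ZMod m) ≠ (b : ZMod m) := by
  intro he
  rw [ZMod.natCast_eq_natCast_iff', Nat.mod_eq_of_lt ha, Nat.mod_eq_of_lt hb] at he
  exact h he

theorem cy_fix {m : ℕ} (b : ZMod m) (i l : ℕ) (h : i ≤ l) (hl : l + 1 < m) :
    cy m i b (b - l) = b - l := by
  induction i with
  | zero => rfl
  | succ i ih =>
    rw [cy, Equiv.Perm.mul_apply, ih (by omega)]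
    apply Equiv.swap_apply_of_ne_of_ne
    · intro he
      refine ne_cast (m := m) (a := l) (b := i) (by omega) (by omega) (by omega) ?_
      linear_combination -he
    · intro he
      refine ne_cast (m := m) (a := l + 1) (b := i) (by omega) (by omega) (by omega) ?_
      push_cast
      linear_combination -he

/-- the set of the group elements -/
abbrev GG (n m : ℕ) : Type := ZMod n × ZMod n × Equiv.Perm (ZMod m)

/-- the first generator -/
def sP (n m : ℕ) : Equiv.Perm (GG n m) where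
  toFun g := (g.1 + 1, g.2)
  invFun g := (g.1 - 1, g.2)
  left_inv g := by simp
  right_inv g := by simp

/-- the second generator -/
def tP (n m : ℕ) : Equiv.Perm (GG n m) where
  toFun g := (g.1, g.2.1 + 1, cy m g.1.val (g.2.1.val : ZMod m) * g.2.2)
  invFun g := (g.1, g.2.1 - 1, (cy m g.1.val ((g.2.1 - 1).val : ZMod m))⁻¹ * g.2.2)
  left_inv g := by simp
  right_inv g := by simp

/-- the site -/
def xP (n m : ℕ) (g : GG n m) : ZMod m :=
  g.2.2⁻¹ ((g.2.1.val : ZMod m) - (g.1.val : ZMod m))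

section
variable {n m : ℕ}

theorem sP_ap (i : ℕ) (w : ZMod n × Equiv.Perm (ZMod m)) :
    sP n m ((i : ZMod n), w) = (((i + 1 : ℕ) : ZMod n), w) := by
  simp [sP]

theorem sP_inv (i : ℕ) (w : ZMod n × Equiv.Perm (ZMod m)) :
    (sP n m)⁻¹ (((i + 1 : ℕ) : ZMod n), w) = ((i : ZMod n), w) := by
  rw [Equiv.Perm.inv_eq_iff_eq, sP_ap]

theorem tP_ap {i j : ℕ} (hi : i < n) (hj : j < n) (σ : Equiv.Perm (ZMod m)) :
    tP n m ((i : ZMod n), (j : ZMod n), σ) =
      ((i : ZMod n), ((j + 1 : ℕ) : ZMod n), cy m i (j : ZMod m) * σ) := by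
  simp [tP, ZMod.val_natCast_of_lt hi, ZMod.val_natCast_of_lt hj]

theorem tP_inv {i j : ℕ} (hi : i < n) (hj : j < n) (σ : Equiv.Perm (ZMod m)) :
    (tP n m)⁻¹ ((i : ZMod n), ((j + 1 : ℕ) : ZMod n), σ) =
      ((i : ZMod n), (j : ZMod n), (cy m i (j : ZMod m))⁻¹ * σ) := by
  rw [Equiv.Perm.inv_eq_iff_eq, tP_ap hi hj, mul_inv_cancel_left]

theorem xP_ap {i j : ℕ} (hi : i < n) (hj : j < n) (σ : Equiv.Perm (ZMod m)) :
    xP n m ((i : ZMod n), (j : ZMod n), σ) = σ⁻¹ ((j : ZMod m) - (i : ZMod m)) := by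
  simp [xP, ZMod.val_natCast_of_lt hi, ZMod.val_natCast_of_lt hj]

/-- the commutator -/
theorem kP {i j : ℕ} (hi : i + 1 < n) (hj : j < n) (σ : Equiv.Perm (ZMod m)) :
    (sP n m)⁻¹ (tP n m (sP n m ((tP n m)⁻¹ ((i : ZMod n), ((j + 1 : ℕ) : ZMod n), σ)))) =
      ((i : ZMod n), ((j + 1 : ℕ) : ZMod n),
        Equiv.swap ((j : ZMod m) - i) ((j : ZMod m) - i + 1) * σ) := by
  rw [tP_inv (by omega) hj, sP_ap, tP_ap hi hj, sP_inv, cy, mul_assoc, mul_inv_cancel_left]

theorem good {i j : ℕ} (hm : m = n + 3) (hi : i + 3 < n) (hj : j + 2 < n)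
    (σ : Equiv.Perm (ZMod m)) (g : GG n m)
    (hg : g = (((i + 1 : ℕ) : ZMod n), ((j + 1 : ℕ) : ZMod n), σ)) :
    xP n m g ≠ xP n m (sP n m g) ∧ xP n m g ≠ xP n m ((sP n m)⁻¹ g) ∧
    xP n m (sP n m g) ≠ xP n m ((sP n m)⁻¹ g) ∧
    xP n m (sP n m (tP n m g)) = xP n m g ∧
    xP n m (sP n m (sP n m (tP n m g))) = xP n m (sP n m g) ∧
    xP n m ((sP n m)⁻¹ (tP n m g)) = xP n m ((sP n m)⁻¹ g) ∧
    xP n m ((sP n m)⁻¹ ((sP n m)⁻¹ (tP n m (sP n m ((tP n m)⁻¹ g))))) =
      xP n m ((sP n m)⁻¹ g) ∧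
    (sP n m)⁻¹ (tP n m (sP n m ((tP n m)⁻¹ (sP n m (tP n m g))))) =
      sP n m (tP n m ((sP n m)⁻¹ (tP n m (sP n m ((tP n m)⁻¹ g))))) := by
  subst hg
  have hfix1 := cy_fix (m := m) (((j + 1 : ℕ) : ZMod m)) (i + 1) (i + 1) le_rfl (by omega)
  have hfix2 := cy_fix (m := m) (((j + 1 : ℕ) : ZMod m)) (i + 1) (i + 2) (by omega) (by omega)
  have hfix0 := cy_fix (m := m) (((j + 1 : ℕ) : ZMod m)) i i le_rfl (by omega)
  have one_ne : ((1 : ℕ) : ZMod m) ≠ ((0 : ℕ) : ZMod m) := ne_cast (by omega) (by omega) (by omega)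
  have two_ne : ((2 : ℕ) : ZMod m) ≠ ((0 : ℕ) : ZMod m) := ne_cast (by omega) (by omega) (by omega)
  rw [kP (by omega) (by omega), tP_ap (by omega) (by omega), sP_ap, sP_ap, sP_ap, sP_inv, sP_inv,
    sP_inv, tP_ap (by omega) (by omega), sP_ap]
  rw [xP_ap (by omega) (by omega), xP_ap (by omega) (by omega), xP_ap (by omega) (by omega),
    xP_ap (by omega) (by omega), xP_ap (by omega) (by omega), xP_ap (by omega) (by omega),
    xP_ap (by omega) (by omega)]
  refine ⟨?_, ?_, ?_, ?_, ?_, ?_, ?_, ?_⟩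
  · intro he
    have h1 := σ⁻¹.injective he
    apply one_ne
    push_cast at h1 ⊢
    linear_combination h1
  · intro he
    have h1 := σ⁻¹.injective he
    apply one_ne
    push_cast at h1 ⊢
    linear_combination -h1
  · intro he
    have h1 := σ⁻¹.injective he
    apply two_ne
    push_cast at h1 ⊢
    linear_combination -h1
  · rw [mul_inv_rev, Equiv.Perm.mul_apply]
    congr 1
    rw [Equiv.Perm.inv_eq_iff_eq]
    have e1 : (((j + 1 + 1 : ℕ) : ZMod m) - ((i + 1 + 1 : ℕ) : ZMod m)) =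
        ((j + 1 : ℕ) : ZMod m) - ((i + 1 : ℕ) : ZMod m) := by
      push_cast
      ring
    rw [e1]
    exact hfix1.symm
  · rw [mul_inv_rev, Equiv.Perm.mul_apply]
    congr 1
    rw [Equiv.Perm.inv_eq_iff_eq]
    have e1 : (((j + 1 + 1 : ℕ) : ZMod m) - ((i + 1 + 1 + 1 : ℕ) : ZMod m)) =
        ((j + 1 : ℕ) : ZMod m) - ((i + 2 : ℕ) : ZMod m) := by
      push_cast
      ring
    have e2 : (((j + 1 : ℕ) : ZMod m) - ((i + 1 + 1 : ℕ) : ZMod m)) =
        ((j + 1 : ℕ) : ZMod m) - ((i + 2 : ℕ) : ZMod m) := rfl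
    rw [e1, e2]
    exact hfix2.symm
  · rw [mul_inv_rev, Equiv.Perm.mul_apply]
    congr 1
    rw [Equiv.Perm.inv_eq_iff_eq, cy, Equiv.Perm.mul_apply, hfix0, Equiv.swap_apply_left]
    push_cast
    ring
  · rw [mul_inv_rev, Equiv.Perm.mul_apply, Equiv.swap_inv]
    congr 1
    apply Equiv.swap_apply_of_ne_of_ne
    · intro he
      apply two_ne
      push_cast at he ⊢
      linear_combination he
    · intro he
      apply one_ne
      push_cast at he ⊢
      linear_combination he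
  · rw [kP (by omega) (by omega)]
    have e1 : (((j + 1 : ℕ) : ZMod m) - ((i + 1 + 1 : ℕ) : ZMod m)) =
        (j : ZMod m) - ((i + 1 : ℕ) : ZMod m) := by
      push_cast
      ring
    have e2 : (((j + 1 : ℕ) : ZMod m) - ((i + 2 : ℕ) : ZMod m)) =
        (j : ZMod m) - ((i + 1 : ℕ) : ZMod m) := e1
    have e3 : (((j + 1 : ℕ) : ZMod m) - ((i + 1 : ℕ) : ZMod m)) =
        (j : ZMod m) - ((i + 1 : ℕ) : ZMod m) + 1 := by
      push_cast
      ring
    rw [e2] at hfix2
    rw [e3] at hfix1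
    have e4 := Equiv.mul_swap_eq_swap_mul (cy m (i + 1) ((j + 1 : ℕ) : ZMod m))
      ((j : ZMod m) - ((i + 1 : ℕ) : ZMod m)) ((j : ZMod m) - ((i + 1 : ℕ) : ZMod m) + 1)
    rw [hfix1, hfix2] at e4
    rw [e1, ← mul_assoc, ← mul_assoc, e4]

end

theorem near {n : ℕ} [NeZero n] (hn : 5 ≤ n) (a : ZMod n)
    (ha : a ∉ ({0, -1, -2, -3} : Finset (ZMod n))) :
    ∃ i : ℕ, i + 4 < n ∧ a = ((i + 1 : ℕ) : ZMod n) := by
  simp only [Finset.mem_insert, Finset.mem_singleton, not_or] at ha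
  obtain ⟨h0, h1, h2, h3⟩ := ha
  have hv : ((a.val : ℕ) : ZMod n) = a := ZMod.natCast_zmod_val a
  have hlt := ZMod.val_lt a
  have g0 : a.val ≠ 0 := fun h => h0 ((ZMod.val_eq_zero a).1 h)
  have key : ∀ k : ℕ, k < n → a.val = n - k → a = -(k : ZMod n) := by
    intro k hk h
    rw [← hv, h, Nat.cast_sub hk.le, ZMod.natCast_self, zero_sub]
  have g1 : a.val ≠ n - 1 := fun h => h1 (by simpa using key 1 (by omega) h)
  have g2 : a.val ≠ n - 2 := fun h => h2 (by simpa using key 2 (by omega) h)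
  have g3 : a.val ≠ n - 3 := fun h => h3 (by simpa using key 3 (by omega) h)
  refine ⟨a.val - 1, by omega, ?_⟩
  rw [← hv]
  congr 1
  rw [hv]
  omega

theorem st_FO : ST_FO := by
  classical
  intro N hN
  obtain ⟨n, hn⟩ : ∃ n, n = 8 * N := ⟨_, rfl⟩
  obtain ⟨m, hm⟩ : ∃ m, m = n + 3 := ⟨_, rfl⟩
  haveI : NeZero n := ⟨by omega⟩
  haveI : NeZero m := ⟨by omega⟩
  let B : Finset (ZMod n) := {0, -1, -2, -3}
  have hB : B.card ≤ 4 := Finset.card_le_four
  have hz : Fintype.card (ZMod n) = n := ZMod.card n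
  let bad : Finset (GG n m) := B ×ˢ (Finset.univ : Finset (ZMod n × Equiv.Perm (ZMod m))) ∪
    (Finset.univ : Finset (ZMod n)) ×ˢ (B ×ˢ (Finset.univ : Finset (Equiv.Perm (ZMod m))))
  refine ⟨GG n m, ZMod m, inferInstance, inferInstance, inferInstance, inferInstance,
    inferInstance, sP n m, tP n m, xP n m, bad, ?_, ?_⟩
  · have h1 : bad.card ≤ B.card * (n * Fintype.card (Equiv.Perm (ZMod m))) +
        n * (B.card * Fintype.card (Equiv.Perm (ZMod m))) := by
      refine (Finset.card_union_le _ _).trans ?_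
      rw [Finset.card_product, Finset.card_product, Finset.card_product, Finset.card_univ,
        Finset.card_univ, Finset.card_univ, Fintype.card_prod, hz]
    have h2 : Fintype.card (GG n m) = n * (n * Fintype.card (Equiv.Perm (ZMod m))) := by
      rw [Fintype.card_prod, Fintype.card_prod, hz]
    rw [h2]
    set P := Fintype.card (Equiv.Perm (ZMod m))
    calc bad.card * N ≤ (B.card * (n * P) + n * (B.card * P)) * N :=
          Nat.mul_le_mul_right _ h1
      _ ≤ (4 * (n * P) + n * (4 * P)) * N := by gcongr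
      _ = (8 * N) * (n * P) := by ring
      _ = n * (n * P) := by rw [← hn]
  · rintro ⟨a, b, σ⟩ hg
    have h1 : a ∉ B ∧ b ∉ B := by
      constructor
      · intro h
        exact hg (Finset.mem_union_left _ (Finset.mem_product.2 ⟨h, Finset.mem_univ _⟩))
      · intro h
        exact hg (Finset.mem_union_right _ (Finset.mem_product.2 ⟨Finset.mem_univ _,
          Finset.mem_product.2 ⟨h, Finset.mem_univ _⟩⟩))
    obtain ⟨i, hi, ha⟩ := near (by omega) a h1.1
    obtain ⟨j, hj, hb⟩ := near (by omega) b h1.2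
    exact good (i := i) (j := j) hm (by omega) (by omega) σ _ (by rw [ha, hb])

end Pool.Agent.Helper38.FR
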